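import Pool.Agent.H984R3.Per.Defs
import Pool.Agent.W92.DP.Defs

/-!
Double points of the limits of the closed lattice path which traces the outer boundary of the
largest critical cluster: definitions and statements on the lattice (as propositions, nothing is
assumed).
-/

namespace Pool.Agent.W822.PD

open H974 H12S Finset H389NS H984P H984N H342P
open Pool.Agent.W92.DP

/-! ### Lattice: pinches -/

/-- A pinch at the vertex `v`: an open edge `e = {v, v2}`, both ends of which are joined in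
`F \ {e}` to distance at least `d`, such that `v` is joined to the vertex of `σ` and both sides of
`e` are joined to the face of `σ` by closed dual paths.  Only the edges of `W` are used. -/
def PinA (d : ℤ) (σ : St) (W F : Set Edg) (v : Vtx) : Prop :=
  ∃ (e : Edg) (v2 u1 u2 : Vtx), e ∈ F ∩ W ∧
    ((src e = v ∧ tgt e = v2) ∨ (src e = v2 ∧ tgt e = v)) ∧ Reach (F ∩ W) σ.1 v ∧
    (Reach ((F ∩ W) \ {e}) v u1 ∧ Reach ((F ∩ W) \ {e}) v2 u2) ∧ (Far v d u1 ∧ Far v d u2) ∧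
    (DReach (W \ F) (face σ) (dsrc e) ∧ DReach (W \ F) (face σ) (dtgt e))

/-- A pinch of the outer boundary of the cluster of `v` at the vertex `w`. -/
def PinO (d : ℤ) (v : Vtx) (F : Set Edg) (w : Vtx) : Prop :=
  ∃ (e : Edg) (v2 u1 u2 : Vtx), e ∈ F ∧
    ((src e = w ∧ tgt e = v2) ∨ (src e = v2 ∧ tgt e = w)) ∧ Reach F v w ∧
    (Reach (F \ {e}) w u1 ∧ Reach (F \ {e}) v2 u2) ∧ (Far w d u1 ∧ Far w d u2) ∧
    (Outer F v (dsrc e) ∧ Outer F v (dtgt e))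

/-- Energy of a set of vertices. -/
noncomputable def EnV (t : ℝ) (V : Finset Vtx) : ℝ :=
  ∑ v ∈ V, ∑ w ∈ V, ((max (sd v w) 1 : ℤ) : ℝ) ^ (-t)

/-- Many pinches of size `2 a`, with small energy. -/
def RPin (t c E : ℝ) (a : ℕ) (σ : St) (W F : Set Edg) : Prop :=
  ∃ V : Finset Vtx, c * (a : ℝ) ^ (3/4 : ℝ) ≤ (V.card : ℝ) ∧
    EnV t V ≤ E * (a : ℝ) ^ (3/2 - t) ∧ ∀ v ∈ V, PinA (2 * a) σ W F v

/-- Many pinches of size `d` of the outer boundary of the cluster of `v`, with small energy. -/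
def RPinO (t c E : ℝ) (a : ℕ) (d : ℤ) (v : Vtx) (F : Set Edg) : Prop :=
  ∃ V : Finset Vtx, c * (a : ℝ) ^ (3/4 : ℝ) ≤ (V.card : ℝ) ∧
    EnV t V ≤ E * (a : ℝ) ^ (3/2 - t) ∧ ∀ w ∈ V, PinO d v F w

/-- Trials create many pinches with probability at least `δ`. -/
def TrialR (t c E : ℝ) (S : Finset Edg) (A y0 : ℤ) (a : ℕ) (δ : ℝ) : Prop :=
  ∀ (k F0 : Finset Edg) (X Y : ℤ) (T : ℕ),
    F0 ⊆ S → k ⊆ S → Strand (↑F0 : Set Edg) A y0 X Y T → A + 100 * a ≤ X →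
    Bl X Y a ⊆ S → ((A - 1, y0, true) : Edg) ∈ k → Exm (↑F0) (st0 A y0) T ⊆ k →
    (∀ e ∈ k, e ∈ Bl X Y a → e ∈ Exm (↑F0) (st0 A y0) T) →
    δ ≤ Pr (fun _ => (1/2:ℝ)) (S \ k) (fun G => RPin t c E a (st0 A y0)
        (↑(Exm (↑F0) (st0 A y0) T ∪ Bl X Y a)) (↑((F0 ∩ k) ∪ G)))

/-- Translation of a configuration: `e ∈ tr z F ↔ e + z ∈ F`. -/
noncomputable def tr (z : Vtx) (F : Finset Edg) : Finset Edg := (trl (-z.1) (-z.2)).mp F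

/-- The crossings around the core `[-10U, -8U] × [17U, 19U]`, prolonged across the two strips
`-28U ≤ y ≤ -4U` (open) and `44U ≤ y ≤ 68U` (dual). -/
def Cc (U : ℤ) (F : Finset Edg) : Prop :=
  (GO U F ∧ TBc (-(17 * U)) (-U) (-(28 * U)) (12 * U) F) ∧
    (GD U F ∧ DTB U (6 * U) (36 * U) (68 * U) F)

/-- The edges on which `Cc` and the events `E4` of the core depend. -/
noncomputable def SC (U : ℤ) : Finset Edg := RE (-(27 * U)) (27 * U) (-(28 * U)) (68 * U)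

/-! ### Statements (nothing is assumed) -/

/-- CEN: many vertices with the plus event, together with the crossings. -/
def PD_CEN : Prop := ∃ (L M : ℕ) (c p : ℝ), 2 ≤ L ∧ 64 ≤ M ∧ 0 < c ∧ 0 < p ∧
  (∀ r : ℕ, 1 ≤ r → ∀ S : Finset Edg, SC (L * (M * r) : ℕ) ⊆ S →
    p ≤ PQ (1/2) S (fun F => Cc (L * (M * r) : ℕ) F ∧
      c * ((M * r : ℕ) : ℝ) ^ (3/4 : ℝ) ≤ ((V4 L (M * r) F).card : ℝ))) ∧
  ∀ t : ℝ, 0 < t → t < 3/4 → ∀ ε : ℝ, 0 < ε → ∃ E : ℝ, 0 < E ∧ ∀ r : ℕ, 1 ≤ r →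
    ∀ S : Finset Edg, SC (L * (M * r) : ℕ) ⊆ S →
      PQ (1/2) S (fun F => E * ((M * r : ℕ) : ℝ) ^ (3/2 - t) < En4 t L (M * r) F) ≤ ε

/-- DET: deterministic part of a trial, `U = L m`, `a = 6 U`, `z = (X + 32 a, Y - 20 U)`. -/
def PD_DET : Prop := ∀ (L m a : ℕ) (F : Finset Edg) (A y0 X Y : ℤ) (T : ℕ)
  (hv hf : Vtx → ZMod 2), 2 ≤ L → 64 ≤ m → a = 6 * (L * m) → Strand (↑F : Set Edg) A y0 X Y T →
  LEv X Y a {v | ∃ s ≤ T, (orb (↑F) (st0 A y0) s).1 = v} (Tlow (↑F) A y0 X Y T a hv) ↑F →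
  UEv X Y a {f | ∃ s ≤ T, face (orb (↑F) (st0 A y0) s) = f} (Tup (↑F) A y0 X Y T a hf) ↑F →
  Cc (L * m : ℕ) (tr (X + 32 * a, Y - 20 * (L * m : ℕ)) F) →
  ∀ v ∈ core4 (L * m : ℕ), E4 L m v (tr (X + 32 * a, Y - 20 * (L * m : ℕ)) F) →
    PinA (2 * a) (st0 A y0) (↑(Exm (↑F) (st0 A y0) T ∪ Bl X Y a)) ↑F
      (v.1 + (X + 32 * a), v.2 + (Y - 20 * (L * m : ℕ)))

/-- TRI: trials create many pinches with a probability bounded below. -/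
def PD_TRI : Prop := ∀ t : ℝ, 0 < t → t < 3/4 → ∃ (M : ℕ) (c E δ : ℝ), 0 < M ∧ 0 < c ∧ 0 < E ∧
  0 < δ ∧ ∀ (S : Finset Edg) (A y0 : ℤ) (r : ℕ), 1 ≤ r → TrialR t c E S A y0 (M * r) δ

/-- ITE: iteration of the trials. -/
def PD_ITE : Prop := ∀ (t c E : ℝ) (S : Finset Edg) (A y0 H : ℤ) (a K : ℕ) (δ : ℝ), 1 ≤ a →
  1 ≤ K → 0 ≤ δ → δ ≤ 1 →
  RE (A - 60 * a) (A + 121 * a * K + 60 * a) (y0 - H - 60 * a) (y0 + H + 60 * a) ⊆ S →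
  TrialR t c E S A y0 a δ →
  Pr (fun _ => (1/2:ℝ)) S
      (fun F => Long' A y0 H a K (↑F) ∧ ¬ RPin t c E a (st0 A y0) Set.univ (↑F)) ≤
    (1 - δ) ^ K * Pr (fun _ => (1/2:ℝ)) S (fun F => Long' A y0 H a 1 (↑F))

/-- ROT: rotation invariance. -/
def PD_ROT : Prop := ∀ (t c E : ℝ) (a : ℕ) (σ : St) (F : Finset Edg),
  RPin t c E a (rS σ) Set.univ (↑(rM F)) → RPin t c E a σ Set.univ (↑F)

/-- LOW: union bound over the starts and the four directions. -/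
def PD_LOW : Prop := ∃ C : ℝ, 0 < C ∧ ∀ (t c E : ℝ) (n a K : ℕ) (δ : ℝ) (R : ℤ), 5 ≤ a →
    1 ≤ K → 0 ≤ δ → δ ≤ 1 →
    (∀ b c' A y0 : ℤ, TrialR t c E (RE b (b + n) c' (c' + n)) A y0 a δ) →
    121 * a * K + a + 2 ≤ R →
    Pr (fun _ => (1/2:ℝ)) (RE 0 n 0 n) (fun F => ∃ σ : St,
      inR (3 * R + 60 * a) (n - 3 * R - 60 * a) (3 * R + 60 * a) (n - 3 * R - 60 * a) σ.1 ∧
      (∃ t, Far σ.1 R (orb (↑F) σ t).1) ∧ ¬ RPin t c E a σ Set.univ (↑F)) ≤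
      C * ((n:ℝ) / a + 1) ^ 2 * (1 - δ) ^ K

/-- BIG: deterministic conclusion for the largest cluster. -/
def PD_BIG : Prop := ∀ (t c E : ℝ) (a n : ℕ) (F : Finset Edg) (R R1 m : ℤ), F ⊆ RE 0 n 0 n →
  Big n m (↑F) → 1 ≤ R → R1 < m → 2 * R < m → ¬ LayEv n R1 m (↑F) →
  (¬ ∃ σ : St, inR R1 (n - R1) R1 (n - R1) σ.1 ∧
      (∃ t, Far σ.1 R (orb (↑F) σ t).1) ∧ ¬ RPin t c E a σ Set.univ (↑F)) →
  ∀ v, IsMax n (↑F) v → RPinO t c E a (2 * a) v (↑F)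

/-- PAR: choice of the parameters. -/
def PD_PAR : Prop := ∀ t : ℝ, 0 < t → t < 3/4 → ∀ δ : ℝ, 0 < δ → ∃ ρ c E : ℝ, 0 < ρ ∧ 0 < c ∧
  0 < E ∧ ∃ n0 : ℕ, ∀ n : ℕ, n0 ≤ n → Pr (fun _ => (1/2:ℝ)) (RE 0 n 0 n)
    (fun F => ∃ v, IsMax n (↑F) v ∧ ¬ ∃ d : ℤ, ρ * n ≤ d ∧ RPinO t c E n d v (↑F)) ≤ δ

/-- UO: two visits of a box by a periodic orbit, with large excursions on both arcs, imply four
arms. -/
def PD_UO : Prop := ∀ (F : Finset Edg) (σ : St) (N : ℕ), 0 < N → orb (↑F) σ N = σ →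
  (∀ j, 0 < j → j < N → orb (↑F) σ j ≠ σ) → ∀ (c : ℤ × ℤ) (d k : ℕ), d + 6 ≤ k →
  ∀ i j l j' : ℕ, i < j → j < l → l ≤ N → (j' < i ∨ l < j') → j' ≤ N →
    inR (c.1 - d) (c.1 + d) (c.2 - d) (c.2 + d) (orb (↑F) σ i).1 →
    inR (c.1 - d) (c.1 + d) (c.2 - d) (c.2 + d) (orb (↑F) σ l).1 →
    ¬ inR (c.1 - k) (c.1 + k) (c.2 - k) (c.2 + k) (orb (↑F) σ j).1 →
    ¬ inR (c.1 - k) (c.1 + k) (c.2 - k) (c.2 + k) (orb (↑F) σ j').1 →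
    A4a c (d + 2) (k - 2) ↑F ∨ A4d c (d + 2) (k - 2) ↑F

/-- HB: an arm from a box at the boundary of the square `{0, …, n}²`. -/
def PD_HB : Prop := ∃ C : ℝ, 0 < C ∧ ∀ (n ρ k : ℕ) (x : Vtx), 1 ≤ ρ → ρ ≤ k →
  (x.1 = 0 ∨ x.1 = n ∨ x.2 = 0 ∨ x.2 = n) → inR 0 n 0 n x →
  Pr (fun _ => (1/2:ℝ)) (RE 0 n 0 n) (fun F => ∃ u v : Vtx,
    inR (x.1 - ρ) (x.1 + ρ) (x.2 - ρ) (x.2 + ρ) u ∧ Far x k v ∧ Reach (↑F) u v) ≤
      C * ((ρ:ℝ) / k) ^ (1/3 : ℝ)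

end Pool.Agent.W822.PD
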