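import Pool.Agent.H342R3.Tig.Defs
import Pool.Agent.H342R3.Lim.Law
import Pool.Agent.W822.PD.Stm

/-!
Double points of the limits of the closed lattice path which traces the outer boundary of the
largest critical cluster: definitions and statements on the curves (as propositions, nothing is
assumed).
-/

namespace Pool.Agent.W822.PD

open H974 H12S Finset H389NS H984P H984N H342P H342L H342T
open MeasureTheory Filter Topology Pool.Agent.W92.DP

/-! ### Curves -/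

/-- Double points of the closed curve `f` such that both arcs between the two times contain a point
at distance at least `η`. -/
def DPc (η : ℝ) (f : C(unitInterval, ℂ)) : Set ℂ :=
  {z | ∃ s t : unitInterval, s ≤ t ∧ f s = z ∧ f t = z ∧
    (∃ u : unitInterval, (s ≤ u ∧ u ≤ t) ∧ η ≤ dist (f u) z) ∧
    ∃ u : unitInterval, (u ≤ s ∨ t ≤ u) ∧ η ≤ dist (f u) z}

/-- The double points of the closed curve `f`: the values which it takes at two times `s < t`
without being constant on one of the two arcs between them. -/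
def Dbl (f : C(unitInterval, ℂ)) : Set ℂ :=
  {z | ∃ s t : unitInterval, s < t ∧ f s = z ∧ f t = z ∧
    (∃ u : unitInterval, (s < u ∧ u < t) ∧ f u ≠ z) ∧
    ∃ u : unitInterval, (u < s ∨ t < u) ∧ f u ≠ z}

/-- Approximate double points. -/
def DDc (η ε : ℝ) (B : Set ℂ) (f : C(unitInterval, ℂ)) : Set ℂ :=
  {z | z ∈ B ∧ ∃ s t : unitInterval, s ≤ t ∧ dist (f s) z ≤ ε ∧ dist (f t) z ≤ ε ∧
    (∃ u : unitInterval, (s ≤ u ∧ u ≤ t) ∧ η ≤ dist (f u) z + ε) ∧
    ∃ u : unitInterval, (u ≤ s ∨ t ≤ u) ∧ η ≤ dist (f u) z + ε}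

/-- The open unit square. -/
def Sq : Set ℂ := {z | 0 < z.re ∧ z.re < 1 ∧ 0 < z.im ∧ z.im < 1}

/-- The closed unit square. -/
def Sqc : Set ℂ := {z | 0 ≤ z.re ∧ z.re ≤ 1 ∧ 0 ≤ z.im ∧ z.im ≤ 1}

/-- Two visits of the disc `B(z, r)`, with excursions of radius more than `ρ` on both arcs. -/
def EvC (z : ℂ) (r ρ : ℝ) : Set Curve :=
  {c | ∃ s t : unitInterval, s ≤ t ∧ dist (c.path s) z < r ∧ dist (c.path t) z < r ∧
    (∃ u : unitInterval, (s ≤ u ∧ u ≤ t) ∧ ρ < dist (c.path u) z) ∧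
    ∃ u : unitInterval, (u ≤ s ∨ t ≤ u) ∧ ρ < dist (c.path u) z}

/-! ### Statements (nothing is assumed) -/

/-- CUR: the tracing path visits a pinch twice, with large excursions on both arcs. -/
def PD_CUR : Prop := ∀ (n : ℕ) (F : Finset Plain.Edge) (v w : Vtx) (d : ℤ) (c : Curve), 0 < n →
  F ⊆ Plain.edges n → IsTrace n F v c → 1 ≤ d → PinO d v (↑F) w →
  pt n w ∈ Sqc ∧ ∃ s t : unitInterval, s ≤ t ∧ c.path s = pt n w ∧ c.path t = pt n w ∧
    (∃ u : unitInterval, (s ≤ u ∧ u ≤ t) ∧ ((d:ℝ) - 1) / n ≤ dist (c.path u) (pt n w)) ∧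
    ∃ u : unitInterval, (u ≤ s ∨ t ≤ u) ∧ ((d:ℝ) - 1) / n ≤ dist (c.path u) (pt n w)

section
variable (sel : (n : ℕ) → Finset Plain.Edge → ℤ × ℤ) (γ : (n : ℕ) → Finset Plain.Edge → Curve)

/-- `sel` chooses a largest cluster and `γ` traces its outer boundary. -/
def Tr : Prop := (∀ n F, 0 < n → F ⊆ Plain.edges n → Plain.Largest n F (sel n F)) ∧
  ∀ n F, 0 < n → F ⊆ Plain.edges n → IsTrace n F (sel n F) (γ n F)

end

/-- UL: upper bound for the dimension of the double points in the open square. -/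
def PD_UL : Prop := PD_UO → St_Aa → St_Ad → ∀ (sel : (n : ℕ) → Finset Plain.Edge → ℤ × ℤ)
  (γ : (n : ℕ) → Finset Plain.Edge → Curve), Tr sel γ → ∀ (k : ℕ → ℕ), Tendsto k atTop atTop →
  ∀ μ : ProbabilityMeasure Curve, Tendsto (fun i => lawOf (k i) (γ (k i))) atTop (𝓝 μ) →
    ∀ η : ℝ, 0 < η → ∀ᵐ c : Curve ∂(μ : Measure Curve), dimH (DPc η c.path ∩ Sq) ≤ 3/4

/-- LL: lower bound for the dimension of the double points. -/
def PD_LL : Prop := PD_PAR → PD_CUR → ∀ (sel : (n : ℕ) → Finset Plain.Edge → ℤ × ℤ)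
  (γ : (n : ℕ) → Finset Plain.Edge → Curve), Tr sel γ → ∀ (k : ℕ → ℕ), Tendsto k atTop atTop →
  ∀ μ : ProbabilityMeasure Curve, Tendsto (fun i => lawOf (k i) (γ (k i))) atTop (𝓝 μ) →
    ∀ t : ℝ, 0 < t → t < 3/4 → ∀ᵐ c : Curve ∂(μ : Measure Curve),
      ENNReal.ofReal t ≤ dimH {z : ℂ | ∃ η : ℝ, 0 < η ∧ z ∈ DPc η c.path}

/-- BL: the intersection of the limit with the boundary of the square has dimension at most
`2/3`. -/
def PD_BL : Prop := PD_HB → ∀ (sel : (n : ℕ) → Finset Plain.Edge → ℤ × ℤ)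
  (γ : (n : ℕ) → Finset Plain.Edge → Curve), Tr sel γ → ∀ (k : ℕ → ℕ), Tendsto k atTop atTop →
  ∀ μ : ProbabilityMeasure Curve, Tendsto (fun i => lawOf (k i) (γ (k i))) atTop (𝓝 μ) →
    ∀ η : ℝ, 0 < η → ∀ᵐ c : Curve ∂(μ : Measure Curve), Set.range c.path ⊆ Sqc ∧
      dimH {z | z ∈ Set.range c.path ∧ z ∈ Sqc \ Sq ∧ ∃ u, η ≤ dist (c.path u) z} ≤
        ENNReal.ofReal (2/3)

end Pool.Agent.W822.PD
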