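import Pool.Agent.H389R2.Dim.Lower
import Pool.Agent.W822.PD.StmC

/-!
Approximate double points of a closed curve: closedness and passage to the limit.
-/

set_option autoImplicit false

namespace Pool.Agent.W822.PD

open Set Filter Topology Metric Pool.Agent.H389R2.Dim H342L

theorem DDc_mono {η ε ε' : ℝ} (h : ε ≤ ε') (B : Set ℂ) (f : C(unitInterval, ℂ)) :
    DDc η ε B f ⊆ DDc η ε' B f := by
  rintro z ⟨hz, s, t, h1, h2, h3, ⟨u, hu, h4⟩, v, hv, h5⟩
  exact ⟨hz, s, t, h1, h2.trans h, h3.trans h, ⟨u, hu, h4.trans (by linarith)⟩, v, hv,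
    h5.trans (by linarith)⟩

/-- The closed condition. -/
def Cnd (η ε : ℝ) (K : Set ℂ) : Set (C(unitInterval, ℂ) ×
    (K × unitInterval × unitInterval × unitInterval × unitInterval)) :=
  {p | p.2.2.1 ≤ p.2.2.2.1 ∧ dist (p.1 p.2.2.1) (p.2.1 : ℂ) ≤ ε ∧
    dist (p.1 p.2.2.2.1) (p.2.1 : ℂ) ≤ ε ∧
    ((p.2.2.1 ≤ p.2.2.2.2.1 ∧ p.2.2.2.2.1 ≤ p.2.2.2.1) ∧
      η ≤ dist (p.1 p.2.2.2.2.1) (p.2.1 : ℂ) + ε) ∧
    ((p.2.2.2.2.2 ≤ p.2.2.1 ∨ p.2.2.2.1 ≤ p.2.2.2.2.2) ∧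
      η ≤ dist (p.1 p.2.2.2.2.2) (p.2.1 : ℂ) + ε)}

theorem closed_cnd (η ε : ℝ) {K : Set ℂ} : IsClosed (Cnd η ε K) := by
  have c1 : Continuous (fun p : C(unitInterval, ℂ) ×
      (K × unitInterval × unitInterval × unitInterval × unitInterval) => p.1 p.2.2.1) := by fun_prop
  have c2 : Continuous (fun p : C(unitInterval, ℂ) ×
      (K × unitInterval × unitInterval × unitInterval × unitInterval) => p.1 p.2.2.2.1) := by
    fun_prop
  have c3 : Continuous (fun p : C(unitInterval, ℂ) ×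
      (K × unitInterval × unitInterval × unitInterval × unitInterval) => p.1 p.2.2.2.2.1) := by
    fun_prop
  have c4 : Continuous (fun p : C(unitInterval, ℂ) ×
      (K × unitInterval × unitInterval × unitInterval × unitInterval) => p.1 p.2.2.2.2.2) := by
    fun_prop
  have c0 : Continuous (fun p : C(unitInterval, ℂ) ×
      (K × unitInterval × unitInterval × unitInterval × unitInterval) => (p.2.1 : ℂ)) := by
    fun_prop
  refine IsClosed.inter ?_ (IsClosed.inter ?_ (IsClosed.inter ?_ (IsClosed.inter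
    (IsClosed.inter (IsClosed.inter ?_ ?_) ?_) (IsClosed.inter (IsClosed.union ?_ ?_) ?_))))
  · exact isClosed_le (by fun_prop) (by fun_prop)
  · exact isClosed_le (c1.dist c0) continuous_const
  · exact isClosed_le (c2.dist c0) continuous_const
  · exact isClosed_le (by fun_prop) (by fun_prop)
  · exact isClosed_le (by fun_prop) (by fun_prop)
  · exact isClosed_le continuous_const ((c3.dist c0).add continuous_const)
  · exact isClosed_le (by fun_prop) (by fun_prop)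
  · exact isClosed_le (by fun_prop) (by fun_prop)
  · exact isClosed_le continuous_const ((c4.dist c0).add continuous_const)

theorem mem_DDc_iff {η ε : ℝ} {B : Set ℂ} {f : C(unitInterval, ℂ)} {z : ℂ} :
    z ∈ DDc η ε B f ↔ ∃ (hz : z ∈ B) (s t u v : unitInterval), (f, ((⟨z, hz⟩ : B), s, t, u, v)) ∈
      Cnd η ε B := by
  constructor
  · rintro ⟨hz, s, t, h1, h2, h3, ⟨u, hu, h4⟩, v, hv, h5⟩
    exact ⟨hz, s, t, u, v, h1, h2, h3, ⟨hu, h4⟩, hv, h5⟩
  · rintro ⟨hz, s, t, u, v, h1, h2, h3, ⟨hu, h4⟩, hv, h5⟩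
    exact ⟨hz, s, t, h1, h2, h3, ⟨u, hu, h4⟩, v, hv, h5⟩

/-- Upper semicontinuity. -/
theorem isOpen_DDc_sub {η ε : ℝ} {B O : Set ℂ} (hB : IsCompact B) (hO : IsOpen O) :
    IsOpen {f : C(unitInterval, ℂ) | DDc η ε B f ⊆ O} := by
  have hK : IsCompact (B \ O) := hB.diff hO
  have : CompactSpace ↥(B \ O) := isCompact_iff_compactSpace.1 hK
  have h1 := closed_cnd η ε (K := B \ O)
  have h2 := isClosedMap_fst_of_compactSpace _ h1
  have h3 : {f : C(unitInterval, ℂ) | DDc η ε B f ⊆ O}ᶜ = Prod.fst '' Cnd η ε (B \ O) := by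
    ext f
    simp only [mem_compl_iff, mem_ofPred_eq, not_subset, mem_image, Prod.exists]
    constructor
    · rintro ⟨z, ⟨hz, s, t, h1, h2, h3, ⟨u, hu, h4⟩, v, hv, h5⟩, hzO⟩
      exact ⟨f, ⟨z, hz, hzO⟩, s, t, u, v, ⟨h1, h2, h3, ⟨hu, h4⟩, hv, h5⟩, rfl⟩
    · rintro ⟨g, ⟨z, hz, hzO⟩, s, t, u, v, ⟨h1, h2, h3, ⟨hu, h4⟩, hv, h5⟩, rfl⟩
      exact ⟨z, ⟨hz, s, t, h1, h2, h3, ⟨u, hu, h4⟩, v, hv, h5⟩, hzO⟩
  rw [← isClosed_compl_iff, h3]
  exact h2

theorem isClosed_good_DDc {t δ c η ε : ℝ} {B : Set ℂ} (hB : IsCompact B) :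
    IsClosed {f : C(unitInterval, ℂ) | Good t δ c (DDc η ε B f)} := by
  have h : {f : C(unitInterval, ℂ) | Good t δ c (DDc η ε B f)} =
      ⋂ s : Finset (ℂ × ℝ), {f : C(unitInterval, ℂ) | (∀ p ∈ s, δ ≤ p.2) →
        DDc η ε B f ⊆ ⋃ p ∈ s, ball p.1 p.2 → c ≤ ∑ p ∈ s, p.2 ^ t} := by
    ext K; simp [Good]
  rw [h]
  apply isClosed_iInter
  intro s
  by_cases h1 : (∀ p ∈ s, δ ≤ p.2) ∧ ¬ c ≤ ∑ p ∈ s, p.2 ^ t
  · have h2 : {f : C(unitInterval, ℂ) | (∀ p ∈ s, δ ≤ p.2) →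
        DDc η ε B f ⊆ ⋃ p ∈ s, ball p.1 p.2 → c ≤ ∑ p ∈ s, p.2 ^ t} =
        {f : C(unitInterval, ℂ) | DDc η ε B f ⊆ ⋃ p ∈ s, ball p.1 p.2}ᶜ := by
      ext K
      simp only [Set.mem_ofPred_eq, Set.mem_compl_iff]
      constructor
      · intro h3 h4; exact h1.2 (h3 h1.1 h4)
      · intro h3 _ h4; exact absurd h4 h3
    rw [h2]
    exact (isOpen_DDc_sub hB (isOpen_biUnion fun p _ => isOpen_ball)).isClosed_compl
  · have h2 : {f : C(unitInterval, ℂ) | (∀ p ∈ s, δ ≤ p.2) →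
        DDc η ε B f ⊆ ⋃ p ∈ s, ball p.1 p.2 → c ≤ ∑ p ∈ s, p.2 ^ t} = univ := by
      ext K
      simp only [Set.mem_ofPred_eq, Set.mem_univ, iff_true]
      intro h3 _
      by_contra h4
      exact h1 ⟨h3, h4⟩
    rw [h2]; exact isClosed_univ

theorem isCompact_DDc {η ε : ℝ} {B : Set ℂ} (hB : IsCompact B) (f : C(unitInterval, ℂ)) :
    IsCompact (DDc η ε B f) := by
  have : CompactSpace ↥B := isCompact_iff_compactSpace.1 hB
  have h1 := closed_cnd η ε (K := B)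
  have hc : Continuous (fun p : ↥B × unitInterval × unitInterval × unitInterval × unitInterval =>
      (f, p)) := by
    fun_prop
  have h2 := (h1.preimage hc).isCompact
  have h3 : DDc η ε B f =
      (fun p : ↥B × unitInterval × unitInterval × unitInterval × unitInterval => (p.1 : ℂ)) ''
      ((fun p : ↥B × unitInterval × unitInterval × unitInterval × unitInterval => (f, p)) ⁻¹'
        Cnd η ε B) := by
    ext z
    simp only [mem_image, mem_preimage, Prod.exists]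
    constructor
    · rintro ⟨hz, s, t, h1, h2, h3, ⟨u, hu, h4⟩, v, hv, h5⟩
      exact ⟨⟨z, hz⟩, s, t, u, v, ⟨h1, h2, h3, ⟨hu, h4⟩, hv, h5⟩, rfl⟩
    · rintro ⟨⟨z, hz⟩, s, t, u, v, ⟨h1, h2, h3, ⟨hu, h4⟩, hv, h5⟩, rfl⟩
      exact ⟨hz, s, t, h1, h2, h3, ⟨u, hu, h4⟩, v, hv, h5⟩
  rw [h3]
  exact h2.image (by fun_prop)

/-- Passing to `ε = 0`. -/
theorem good_zero {t δ c η : ℝ} {B : Set ℂ} (hB : IsCompact B) (f : C(unitInterval, ℂ))
    (h : ∀ n : ℕ, Good t δ c (DDc η (1 / ((n : ℝ) + 1)) B f)) : Good t δ c (DDc η 0 B f) := by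
  intro s hs hcov
  set O : Set ℂ := ⋃ p ∈ s, ball p.1 p.2 with hOdef
  have hO : IsOpen O := isOpen_biUnion fun p _ => isOpen_ball
  by_contra hcon
  -- all approximations stick out of `O`
  have hne : ∀ n : ℕ, (DDc η (1 / ((n : ℝ) + 1)) (B \ O) f).Nonempty := by
    intro n
    by_contra hemp
    apply hcon
    apply h n s hs
    rintro z ⟨hz, hh⟩
    by_contra hzO
    exact hemp ⟨z, ⟨hz, hzO⟩, hh⟩
  have hK : IsCompact (B \ O) := hB.diff hO
  have : CompactSpace ↥(B \ O) := isCompact_iff_compactSpace.1 hK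
  have hc : Continuous (fun p : ↥(B \ O) × unitInterval × unitInterval × unitInterval ×
      unitInterval => (f, p)) := by fun_prop
  let A : ℕ → Set (↥(B \ O) × unitInterval × unitInterval × unitInterval × unitInterval) :=
    fun n => (fun p => (f, p)) ⁻¹' Cnd η (1 / ((n : ℝ) + 1)) (B \ O)
  have hAcl : ∀ n, IsClosed (A n) := fun n => (closed_cnd η _).preimage hc
  have hle : ∀ n : ℕ, 1 / (((n + 1 : ℕ) : ℝ) + 1) ≤ 1 / ((n : ℝ) + 1) := fun n =>
    Nat.one_div_le_one_div (Nat.le_succ n)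
  have hAanti : ∀ n, A (n + 1) ⊆ A n := by
    rintro n p ⟨h1, h2, h3, ⟨hu, h4⟩, hv, h5⟩
    exact ⟨h1, h2.trans (hle n), h3.trans (hle n), ⟨hu, h4.trans (by linarith [hle n])⟩, hv,
      h5.trans (by linarith [hle n])⟩
  have hAne : ∀ n, (A n).Nonempty := by
    intro n
    obtain ⟨z, hz, s', t', h1, h2, h3, ⟨u, hu, h4⟩, v, hv, h5⟩ := hne n
    exact ⟨(⟨z, hz⟩, s', t', u, v), h1, h2, h3, ⟨hu, h4⟩, hv, h5⟩
  obtain ⟨p, hp⟩ := IsCompact.nonempty_iInter_of_sequence_nonempty_isCompact_isClosed A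
    hAanti hAne (hAcl 0).isCompact hAcl
  rw [mem_iInter] at hp
  have hlim : Tendsto (fun n : ℕ => 1 / ((n : ℝ) + 1)) atTop (𝓝 0) :=
    tendsto_one_div_add_atTop_nhds_zero_nat
  have hz : (p.1 : ℂ) ∈ DDc η 0 B f := by
    refine ⟨p.1.2.1, p.2.1, p.2.2.1, (hp 0).1, ?_, ?_, ⟨p.2.2.2.1, (hp 0).2.2.2.1.1, ?_⟩,
      p.2.2.2.2, (hp 0).2.2.2.2.1, ?_⟩
    · exact ge_of_tendsto' hlim fun n => (hp n).2.1
    · exact ge_of_tendsto' hlim fun n => (hp n).2.2.1
    · exact ge_of_tendsto' ((tendsto_const_nhds).add hlim) fun n => (hp n).2.2.2.1.2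
    · exact ge_of_tendsto' ((tendsto_const_nhds).add hlim) fun n => (hp n).2.2.2.2.2
  exact p.1.2.2 (hcov hz)

/-! ### Curves modulo reparametrisation -/

theorem DDc_rep (η ε : ℝ) (B : Set ℂ) (f : C(unitInterval, ℂ)) (φ : unitInterval ≃o unitInterval) :
    DDc η ε B (rep f φ) = DDc η ε B f := by
  have key : ∀ (g : C(unitInterval, ℂ)) (ψ : unitInterval ≃o unitInterval),
      DDc η ε B (rep g ψ) ⊆ DDc η ε B g := by
    rintro g ψ z ⟨hz, s, t, h1, h2, h3, ⟨u, hu, h4⟩, v, hv, h5⟩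
    refine ⟨hz, ψ s, ψ t, ψ.monotone h1, h2, h3, ⟨ψ u, ⟨ψ.monotone hu.1, ψ.monotone hu.2⟩, h4⟩,
      ψ v, ?_, h5⟩
    rcases hv with hv | hv
    · exact Or.inl (ψ.monotone hv)
    · exact Or.inr (ψ.monotone hv)
  refine Set.Subset.antisymm (key f φ) ?_
  have h1 := key (rep f φ) φ.symm
  have h2 : rep (rep f φ) φ.symm = f := by
    ext t
    rw [rep_apply, rep_apply, OrderIso.apply_symm_apply]
  rwa [h2] at h1

/-- A closed set of parametrised curves which is invariant under reparametrisation gives a closed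
set of curves. -/
theorem isClosed_curve {P : C(unitInterval, ℂ) → Prop} (hP : IsClosed {f | P f})
    (hinv : ∀ f (φ : unitInterval ≃o unitInterval), P f → P (rep f φ)) :
    IsClosed {c : Curve | P c.path} := by
  apply isClosed_of_closure_subset
  intro c hcl
  have h1 : c.path ∈ closure {f : C(unitInterval, ℂ) | P f} := by
    rw [Metric.mem_closure_iff]
    intro ε hε
    obtain ⟨c', hc', hd⟩ := Metric.mem_closure_iff.mp hcl ε hε
    rw [Curve.dist_def, cdist_eq] at hd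
    obtain ⟨φ, hφ⟩ := exists_lt_of_ciInf_lt hd
    exact ⟨rep c'.path φ, hinv _ φ hc', hφ⟩
  have h2 := hP.closure_subset h1
  exact h2

theorem isClosed_good_curve {t δ c η ε : ℝ} {B : Set ℂ} (hB : IsCompact B) :
    IsClosed {γ : Curve | Good t δ c (DDc η ε B γ.path)} :=
  isClosed_curve (isClosed_good_DDc hB) (fun f φ h => by rwa [DDc_rep])

end Pool.Agent.W822.PD
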