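import Pool.Agent.W822.PD.LL

/-!
Assembly: the double points of the limits have dimension `3/4`.
-/

set_option autoImplicit false

namespace Pool.Agent.W822.PD

open H974 H12S Finset H389NS H984P H984N H342P H342L H342T
open MeasureTheory Filter Topology Pool.Agent.W92.DP Pool.Agent.H389R2.Dim
open scoped ENNReal NNReal

theorem Dbl_sub (f : C(unitInterval, ℂ)) : Dbl f ⊆ ⋃ j : ℕ, DPc (1 / ((j:ℝ) + 1)) f := by
  rintro z ⟨s, t, hst, h1, h2, ⟨u, hu, h3⟩, v, hv, h4⟩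
  have h5 : 0 < min (dist (f u) z) (dist (f v) z) := lt_min (dist_pos.2 h3) (dist_pos.2 h4)
  obtain ⟨j, hj⟩ := exists_nat_one_div_lt h5
  refine Set.mem_iUnion.mpr ⟨j, s, t, hst.le, h1, h2, ⟨u, ⟨hu.1.le, hu.2.le⟩,
    hj.le.trans (min_le_left _ _)⟩, v, ?_, hj.le.trans (min_le_right _ _)⟩
  rcases hv with hv | hv
  · exact Or.inl hv.le
  · exact Or.inr hv.le

theorem DPc_sub_Dbl {f : C(unitInterval, ℂ)} {η : ℝ} (hη : 0 < η) : DPc η f ⊆ Dbl f := by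
  rintro z ⟨s, t, hst, h1, h2, ⟨u, hu, h3⟩, v, hv, h4⟩
  have key : ∀ w : unitInterval, η ≤ dist (f w) z → f w ≠ z := by
    intro w hw h
    rw [h, dist_self] at hw
    linarith
  have hus : s < u := lt_of_le_of_ne hu.1 (fun h => key u h3 (by rw [← h, h1]))
  have hut : u < t := lt_of_le_of_ne hu.2 (fun h => key u h3 (by rw [h, h2]))
  refine ⟨s, t, hus.trans hut, h1, h2, ⟨u, ⟨hus, hut⟩, key u h3⟩, v, ?_, key v h4⟩
  rcases hv with hv | hv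
  · exact Or.inl (lt_of_le_of_ne hv (fun h => key v h4 (by rw [h, h1])))
  · exact Or.inr (lt_of_le_of_ne hv (fun h => key v h4 (by rw [← h, h2])))

theorem e34 : ENNReal.ofReal (3/4) = 3/4 := by
  rw [ENNReal.ofReal_div_of_pos (by norm_num)]
  norm_num

theorem e23 : ENNReal.ofReal (2/3) = 2/3 := by
  rw [ENNReal.ofReal_div_of_pos (by norm_num)]
  norm_num

theorem lt2334 : (2/3 : ℝ≥0∞) < 3/4 := by
  rw [← e34, ← e23, ENNReal.ofReal_lt_ofReal_iff (by norm_num)]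
  norm_num

theorem fin (hUO : PD_UO) (hAa : St_Aa) (hAd : St_Ad) (hUL : PD_UL) (hPAR : PD_PAR)
    (hCUR : PD_CUR) (hHB : PD_HB) (hBL : PD_BL) {sel : (n : ℕ) → Finset Plain.Edge → ℤ × ℤ}
    {γ : (n : ℕ) → Finset Plain.Edge → Curve} (hT : Tr sel γ) {k : ℕ → ℕ}
    (hk : Tendsto k atTop atTop) {μ : ProbabilityMeasure Curve}
    (hμ : Tendsto (fun i => lawOf (k i) (γ (k i))) atTop (𝓝 μ)) :
    ∀ᵐ c : Curve ∂(μ : Measure Curve), dimH (Dbl c.path) = 3/4 ∧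
      dimH (Dbl c.path ∩ Sq) = 3/4 ∧ dimH (Dbl c.path \ Sq) ≤ 2/3 := by
  have hpos : ∀ j : ℕ, (0:ℝ) < 1 / ((j:ℝ) + 1) := fun j => by positivity
  have h1 : ∀ᵐ c : Curve ∂(μ : Measure Curve), ∀ j : ℕ,
      dimH (DPc (1 / ((j:ℝ) + 1)) c.path ∩ Sq) ≤ 3/4 := by
    rw [ae_all_iff]
    intro j
    exact hUL hUO hAa hAd sel γ hT k hk μ hμ _ (hpos j)
  have h2 : ∀ᵐ c : Curve ∂(μ : Measure Curve), ∀ j : ℕ, Set.range c.path ⊆ Sqc ∧
      dimH {z | z ∈ Set.range c.path ∧ z ∈ Sqc \ Sq ∧ ∃ u, 1 / ((j:ℝ) + 1) ≤ dist (c.path u) z} ≤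
        ENNReal.ofReal (2/3) := by
    rw [ae_all_iff]
    intro j
    exact hBL hHB sel γ hT k hk μ hμ _ (hpos j)
  have h3 : ∀ᵐ c : Curve ∂(μ : Measure Curve), ∀ j : ℕ,
      ENNReal.ofReal (3/4 - 1 / ((j:ℝ) + 2)) ≤
        dimH {z : ℂ | ∃ η : ℝ, 0 < η ∧ z ∈ DPc η c.path} := by
    rw [ae_all_iff]
    intro j
    rcases le_or_gt (3/4 - 1 / ((j:ℝ) + 2)) 0 with h | h
    · filter_upwards with c
      rw [ENNReal.ofReal_of_nonpos h]
      exact bot_le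
    · have h4 : (0:ℝ) < 1 / ((j:ℝ) + 2) := by positivity
      exact ll hPAR hCUR sel γ hT k hk μ hμ _ h (by linarith)
  filter_upwards [h1, h2, h3] with c c1 c2 c3
  have low : (3/4 : ℝ≥0∞) ≤ dimH (Dbl c.path) := by
    have hsub : {z : ℂ | ∃ η : ℝ, 0 < η ∧ z ∈ DPc η c.path} ⊆ Dbl c.path := by
      rintro z ⟨η, hη, hz⟩
      exact DPc_sub_Dbl hη hz
    have hlim : Tendsto (fun j : ℕ => ENNReal.ofReal (3/4 - 1 / ((j:ℝ) + 2))) atTop
        (𝓝 (ENNReal.ofReal (3/4 - 0))) := by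
      apply ENNReal.tendsto_ofReal
      apply tendsto_const_nhds.sub
      have h5 : Tendsto (fun j : ℕ => (j:ℝ) + 2) atTop atTop :=
        tendsto_atTop_add_const_right _ _ tendsto_natCast_atTop_atTop
      exact h5.const_div_atTop 1
    rw [sub_zero, e34] at hlim
    exact le_of_tendsto' hlim (fun j => (c3 j).trans (dimH_mono hsub))
  have hin : dimH (Dbl c.path ∩ Sq) ≤ 3/4 := by
    have hsub : Dbl c.path ∩ Sq ⊆ ⋃ j : ℕ, (DPc (1 / ((j:ℝ) + 1)) c.path ∩ Sq) := by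
      rintro z ⟨hz, hz2⟩
      obtain ⟨j, hj⟩ := Set.mem_iUnion.mp (Dbl_sub c.path hz)
      exact Set.mem_iUnion.mpr ⟨j, hj, hz2⟩
    refine (dimH_mono hsub).trans ?_
    rw [dimH_iUnion]
    exact iSup_le c1
  have hout : dimH (Dbl c.path \ Sq) ≤ 2/3 := by
    have hsub : Dbl c.path \ Sq ⊆ ⋃ j : ℕ, {z | z ∈ Set.range c.path ∧ z ∈ Sqc \ Sq ∧
        ∃ u, 1 / ((j:ℝ) + 1) ≤ dist (c.path u) z} := by
      rintro z ⟨hz, hz2⟩
      obtain ⟨j, hj⟩ := Set.mem_iUnion.mp (Dbl_sub c.path hz)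
      obtain ⟨s, t, -, e1, -, ⟨u, -, e2⟩, -⟩ := hj
      have hr : z ∈ Set.range c.path := ⟨s, e1⟩
      exact Set.mem_iUnion.mpr ⟨j, hr, ⟨(c2 0).1 hr, hz2⟩, u, e2⟩
    refine (dimH_mono hsub).trans ?_
    rw [dimH_iUnion]
    exact iSup_le fun j => (c2 j).2.trans (le_of_eq e23)
  have hun : dimH (Dbl c.path) = max (dimH (Dbl c.path ∩ Sq)) (dimH (Dbl c.path \ Sq)) := by
    rw [← dimH_union, Set.inter_union_sdiff]
  have heq : dimH (Dbl c.path ∩ Sq) = 3/4 := by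
    apply le_antisymm hin
    rw [hun] at low
    rcases le_max_iff.mp low with h | h
    · exact h
    · exact absurd (h.trans hout) (not_le.mpr lt2334)
  refine ⟨?_, heq, hout⟩
  rw [hun, heq]
  exact max_eq_left (hout.trans lt2334.le)

end Pool.Agent.W822.PD
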