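import Pool.Agent.W822.PD.ClosedC

/-!
Lower bound for the dimension of the double points of the limits, from the lattice bounds.
-/

set_option autoImplicit false

namespace Pool.Agent.W822.PD

open H974 H12S Finset H389NS H984P H984N H342P H342L H342T
open MeasureTheory Filter Topology Pool.Agent.W92.DP Pool.Agent.H389R2.Dim
open scoped ENNReal NNReal

/-- Abstract passage to the limit. -/
theorem ae_dimC {μs : ℕ → ProbabilityMeasure Curve} {μ : ProbabilityMeasure Curve}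
    (hμ : Tendsto μs atTop (𝓝 μ)) {t : ℝ} (ht : 0 < t) (T : C(unitInterval, ℂ) → Set ℂ)
    (h : ∀ ε : ℝ≥0∞, 0 < ε → ∃ (c η : ℝ) (B : Set ℂ), 0 < c ∧ IsCompact B ∧
      (∀ f, DDc η 0 B f ⊆ T f) ∧ ∀ ε' : ℝ, 0 < ε' → ∀ᶠ i in atTop,
        (μs i : Measure Curve) {γ : Curve | ¬ Good t ε' c (DDc η ε' B γ.path)} ≤ ε) :
    ∀ᵐ p : Curve ∂(μ : Measure Curve), ENNReal.ofReal t ≤ dimH (T p.path) := by
  rw [ae_iff, ← nonpos_iff_eq_zero]
  apply ENNReal.le_of_forall_pos_le_add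
  intro ε hε _
  obtain ⟨c, η, B, hc, hB, hT, h1⟩ := h ε (by exact_mod_cast hε)
  have hopen : ∀ ε' : ℝ, IsOpen {p : Curve | ¬ Good t ε' c (DDc η ε' B p.path)} := by
    intro ε'
    exact (isClosed_good_curve (t := t) (δ := ε') (c := c) (η := η) (ε := ε') hB).isOpen_compl
  have h2 : ∀ ε' : ℝ, 0 < ε' →
      (μ : Measure Curve) {p : Curve | ¬ Good t ε' c (DDc η ε' B p.path)} ≤ ε := by
    intro ε' hε'
    refine (ProbabilityMeasure.le_liminf_measure_open_of_tendsto hμ (hopen ε')).trans ?_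
    exact liminf_le_of_frequently_le (h1 ε' hε').frequently
  set Bd : ℕ → Set Curve := fun n =>
    {p : Curve | ¬ Good t (1 / ((n : ℝ) + 1)) c (DDc η (1 / ((n : ℝ) + 1)) B p.path)} with hBd
  have hmono : Monotone Bd := by
    intro n n' hnn p hp hG
    apply hp
    have h3 := hG.anti (Nat.one_div_le_one_div (α := ℝ) hnn)
    exact h3.mono (DDc_mono (Nat.one_div_le_one_div hnn) B p.path)
  have h3 : {p : Curve | ¬ ENNReal.ofReal t ≤ dimH (T p.path)} ⊆ ⋃ n : ℕ, Bd n := by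
    intro p hp
    by_contra hcon
    simp only [hBd, Set.mem_iUnion, Set.mem_ofPred_eq, not_exists, not_not] at hcon
    apply hp
    have h4 : ∀ δ' : ℝ, 0 < δ' → Good t δ' c (DDc η 0 B p.path) := by
      intro δ' hδ'
      apply good_zero hB
      intro n
      obtain ⟨m, hm⟩ := exists_nat_one_div_lt hδ'
      have h5 := hcon (max n m)
      have h6 : (1 : ℝ) / (((max n m : ℕ) : ℝ) + 1) ≤ 1 / ((n : ℝ) + 1) :=
        Nat.one_div_le_one_div (le_max_left _ _)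
      have h7 : (1 : ℝ) / (((max n m : ℕ) : ℝ) + 1) ≤ 1 / ((m : ℝ) + 1) :=
        Nat.one_div_le_one_div (le_max_right _ _)
      exact (h5.mono (DDc_mono h6 B p.path)).anti (h7.trans hm.le)
    exact (le_dimH_of_good ht hc (isCompact_DDc hB p.path) h4).trans (dimH_mono (hT p.path))
  refine le_trans (measure_mono h3) ?_
  rw [zero_add, hmono.measure_iUnion]
  exact iSup_le fun n => h2 _ (by positivity)

theorem Sqc_eq : Sqc = Set.Icc 0 1 ×ℂ Set.Icc 0 1 := by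
  ext z
  rw [Complex.mem_reProdIm, Set.mem_Icc, Set.mem_Icc]
  unfold Sqc
  simp only [Set.mem_ofPred_eq]
  tauto

theorem isCompact_Sqc : IsCompact Sqc := by
  rw [Sqc_eq]
  exact isCompact_Icc.reProdIm isCompact_Icc

theorem DDc_zero {η : ℝ} {B : Set ℂ} {f : C(unitInterval, ℂ)} : DDc η 0 B f ⊆ DPc η f := by
  rintro z ⟨-, s, t, h1, h2, h3, ⟨u, hu, h4⟩, v, hv, h5⟩
  exact ⟨s, t, h1, dist_le_zero.1 h2, dist_le_zero.1 h3, ⟨u, hu, by linarith⟩, v, hv, by linarith⟩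

theorem sd_castR (v w : Vtx) : ((sd v w : ℤ) : ℝ) =
    max |((v.1 : ℝ) - w.1)| |((v.2 : ℝ) - w.2)| := by
  unfold sd
  push_cast
  rfl

theorem pt_dist {n : ℕ} (hn : 0 < n) (v w : Vtx) :
    (n : ℝ)⁻¹ * ((sd v w : ℤ) : ℝ) ≤ dist (pt n v) (pt n w) := by
  have hn' : (0:ℝ) < n := by exact_mod_cast hn
  rw [sd_castR, dist_eq_norm]
  have e1 : |(pt n v - pt n w).re| = (n:ℝ)⁻¹ * |((v.1 : ℝ) - w.1)| := by
    rw [Complex.sub_re]
    simp only [pt]
    rw [← sub_div, abs_div, Nat.abs_cast]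
    field_simp
  have e2 : |(pt n v - pt n w).im| = (n:ℝ)⁻¹ * |((v.2 : ℝ) - w.2)| := by
    rw [Complex.sub_im]
    simp only [pt]
    rw [← sub_div, abs_div, Nat.abs_cast]
    field_simp
  rcases max_choice |((v.1 : ℝ) - w.1)| |((v.2 : ℝ) - w.2)| with h | h
  · rw [h, ← e1]; exact Complex.abs_re_le_norm _
  · rw [h, ← e2]; exact Complex.abs_im_le_norm _

theorem pt_inj {n : ℕ} (hn : 0 < n) : Function.Injective (pt n) := by
  have hn' : (0:ℝ) < n := by exact_mod_cast hn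
  intro v w h
  have h1 := congrArg Complex.re h
  have h2 := congrArg Complex.im h
  simp only [pt] at h1 h2
  rw [div_left_inj' hn'.ne'] at h1 h2
  exact Prod.ext (by exact_mod_cast h1) (by exact_mod_cast h2)

/-- Many pinches make the set of approximate double points good. -/
theorem good_of_pinches (hC : PD_CUR) {n : ℕ} (hn : 0 < n) {F : Finset Plain.Edge}
    (hF : F ⊆ Plain.edges n) {v : ℤ × ℤ} {c : Curve} (htr : IsTrace n F v c) {t c0 E0 ρ ε' : ℝ}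
    (ht : 0 < t) (hc0 : 0 < c0) (hE0 : 0 < E0) (hρ : 0 < ρ) (hε' : 1 / (n : ℝ) ≤ ε')
    (hn2 : 2 / ρ < n) {d : ℤ} (hd : ρ * n ≤ d) (hR : RPinO t c0 E0 n d v (↑F)) :
    Good t ε' (2 ^ (-t) / (E0 / c0 ^ 2)) (DDc (ρ / 2) ε' Sqc c.path) := by
  classical
  obtain ⟨V, hcard, hEn, hV⟩ := hR
  have hn' : (0:ℝ) < n := by exact_mod_cast hn
  have hcpos : (0 : ℝ) < (V.card : ℝ) := lt_of_lt_of_le (by positivity) hcard
  have hne : V.Nonempty := by
    rw [← Finset.card_pos]; exact_mod_cast hcpos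
  have hε0 : 0 < ε' := lt_of_lt_of_le (by positivity) hε'
  have hρn : 2 < ρ * n := by
    rw [div_lt_iff₀ hρ] at hn2
    linarith
  have hd1 : (1:ℤ) ≤ d := by
    have : (2:ℝ) < d := by linarith
    have h2 : (2:ℤ) < d := by exact_mod_cast this
    omega
  have hη : ρ / 2 ≤ ((d:ℝ) - 1) / n := by
    rw [le_div_iff₀ hn']
    linarith
  refine good_of_energy hε0 ht.le (by positivity) (V.image (pt n)) (hne.image _) ?_ ?_
  · intro z hz
    rw [Finset.mem_coe, Finset.mem_image] at hz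
    obtain ⟨w, hw, rfl⟩ := hz
    obtain ⟨h1, s, u, h2, h3, h4, ⟨a, ha, h5⟩, b, hb, h6⟩ :=
      hC n F v w d c hn hF htr hd1 (hV w hw)
    refine ⟨h1, s, u, h2, ?_, ?_, ⟨a, ha, ?_⟩, b, hb, ?_⟩
    · rw [h3, dist_self]; exact hε0.le
    · rw [h4, dist_self]; exact hε0.le
    · linarith
    · linarith
  · rw [Finset.sum_image (fun a _ b _ hab => pt_inj hn hab),
      Finset.card_image_of_injective _ (pt_inj hn)]
    have e1 : ∀ v ∈ V, ∑ y ∈ V.image (pt n), (max (dist (pt n v) y) ε') ^ (-t) ≤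
        ∑ w ∈ V, ((n:ℝ)⁻¹) ^ (-t) * ((max (sd v w) 1 : ℤ) : ℝ) ^ (-t) := by
      intro v _
      rw [Finset.sum_image (fun a _ b _ hab => pt_inj hn hab)]
      refine Finset.sum_le_sum fun w _ => ?_
      have hm : (1 : ℝ) ≤ ((max (sd v w) 1 : ℤ) : ℝ) := by
        exact_mod_cast le_max_right (sd v w) 1
      rw [← Real.mul_rpow (by positivity) (by linarith)]
      refine Real.rpow_le_rpow_of_nonpos (by positivity) ?_ (by linarith)
      have h6 := pt_dist hn v w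
      rcases max_cases (sd v w) 1 with h | h
      · rw [h.1]; exact h6.trans (le_max_left _ _)
      · rw [h.1]; push_cast; rw [mul_one]
        refine le_trans ?_ (le_max_right _ _)
        rwa [one_div] at hε'
    refine (Finset.sum_le_sum e1).trans ?_
    have e2 : ∑ v ∈ V, ∑ w ∈ V, ((n:ℝ)⁻¹) ^ (-t) * ((max (sd v w) 1 : ℤ) : ℝ) ^ (-t)
        = ((n:ℝ)⁻¹) ^ (-t) * EnV t V := by
      unfold EnV
      rw [Finset.mul_sum]
      refine Finset.sum_congr rfl fun v _ => ?_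
      rw [Finset.mul_sum]
    rw [e2]
    have e3 : (c0 * (n : ℝ) ^ (3/4 : ℝ)) ^ 2 ≤ (V.card : ℝ) ^ 2 :=
      pow_le_pow_left₀ (by positivity) hcard 2
    have e4 : (c0 * (n : ℝ) ^ (3/4 : ℝ)) ^ 2 = c0 ^ 2 * (n : ℝ) ^ (3/2 : ℝ) := by
      rw [mul_pow, ← Real.rpow_natCast ((n : ℝ) ^ (3/4 : ℝ)) 2, ← Real.rpow_mul hn'.le]
      norm_num
    rw [e4] at e3
    have e5 : ((n:ℝ)⁻¹) ^ (-t) = (n:ℝ) ^ t := by
      rw [Real.inv_rpow hn'.le, Real.rpow_neg hn'.le, inv_inv]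
    rw [e5]
    calc (n:ℝ) ^ t * EnV t V ≤ (n:ℝ) ^ t * (E0 * (n : ℝ) ^ (3/2 - t)) :=
          mul_le_mul_of_nonneg_left hEn (by positivity)
      _ = E0 / c0 ^ 2 * (c0 ^ 2 * (n : ℝ) ^ (3/2 : ℝ)) := by
          have : (n:ℝ) ^ t * (n : ℝ) ^ (3/2 - t) = (n : ℝ) ^ (3/2 : ℝ) := by
            rw [← Real.rpow_add hn']
            congr 1
            ring
          rw [← this]
          field_simp
      _ ≤ E0 / c0 ^ 2 * (V.card : ℝ) ^ 2 := mul_le_mul_of_nonneg_left e3 (by positivity)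

theorem ll : PD_LL := by
  intro hP hC sel γ ⟨hsel, htr⟩ k hk μ hμ t ht ht1
  refine ae_dimC hμ ht (fun f => {z : ℂ | ∃ η : ℝ, 0 < η ∧ z ∈ DPc η f}) ?_
  intro ε hε
  obtain ⟨δ, hδ, hδε⟩ : ∃ δ : ℝ, 0 < δ ∧ ENNReal.ofReal δ ≤ ε := by
    rcases eq_or_ne ε ∞ with h | h
    · exact ⟨1, one_pos, by rw [h]; exact le_top⟩
    · exact ⟨ε.toReal, ENNReal.toReal_pos hε.ne' h, by rw [ENNReal.ofReal_toReal h]⟩
  obtain ⟨ρ, c0, E0, hρ, hc0, hE0, n0, hn0⟩ := hP t ht ht1 δ hδ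
  refine ⟨2 ^ (-t) / (E0 / c0 ^ 2), ρ / 2, Sqc, by positivity, isCompact_Sqc, ?_, ?_⟩
  · intro f z hz
    exact ⟨ρ / 2, by positivity, DDc_zero hz⟩
  · intro ε' hε'
    obtain ⟨n1, hn1⟩ := exists_nat_gt (1 / ε')
    obtain ⟨n2, hn2⟩ := exists_nat_gt (2 / ρ)
    have hev : ∀ᶠ i in atTop, max (max n0 n1) (max n2 1) ≤ k i := tendsto_atTop.mp hk _
    filter_upwards [hev] with i hi
    rw [max_le_iff, max_le_iff, max_le_iff] at hi
    obtain ⟨⟨hi0, hi1⟩, hi2, hi3⟩ := hi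
    have hopen : IsOpen {p : Curve |
        ¬ Good t ε' (2 ^ (-t) / (E0 / c0 ^ 2)) (DDc (ρ / 2) ε' Sqc p.path)} :=
      (isClosed_good_curve isCompact_Sqc).isOpen_compl
    rw [lawOf_apply _ _ hopen.measurableSet]
    refine le_trans (ENNReal.ofReal_le_ofReal ?_) hδε
    have hkpos : (0:ℝ) < k i := by exact_mod_cast hi3
    have hk1 : (n1 : ℝ) ≤ k i := by exact_mod_cast hi1
    have hk2 : (n2 : ℝ) ≤ k i := by exact_mod_cast hi2
    refine le_trans (Plain.prob_le_of_pr ?_) (hn0 (k i) hi0)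
    intro F hF hbad
    refine ⟨sel (k i) F, Plain.isMax_of_largest (hsel _ _ hi3 hF), fun hcon => hbad ?_⟩
    obtain ⟨d, hd, hR⟩ := hcon
    refine good_of_pinches hC hi3 hF (htr _ _ hi3 hF) ht hc0 hE0 hρ ?_ (lt_of_lt_of_le hn2 hk2)
      hd hR
    rw [div_le_iff₀ hkpos]
    rw [div_lt_iff₀ hε'] at hn1
    nlinarith

end Pool.Agent.W822.PD
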